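import Pool.Agent.Q211.TP.Psc

/-!
# A Tychonoff space of countable pseudocharacter whose zero-set topology is not discrete

The model is a symmetric extension of permutation type. The atoms are the pairs in `ℕ × ℤ`, the
group consists of the sequences of translations of the blocks `{n} × ℤ`, and the supports are the
finite unions of blocks. The space `X` is a linearly ordered space: the nodes `0, 1, 2, …`, between
the nodes `n` and `n + 1` the block `n` in its natural order, and a last point `∞`. The point `∞`
is the intersection of the open final segments beyond the nodes, and every other point has a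
countable family of clopen sets in an enumerated part of `X`. A continuous real-valued function has
a support that consists of the first `k` blocks, so it is constant beyond the node `k`, and `∞` is
not an isolated point of the zero-set topology.
-/

set_option autoImplicit false

namespace Pool.Agent.Results.MP_053343_lc.NotDiscrete

open Pool.Agent.W868 Pool.Agent.W868.PName Pool.Agent.Q211.SY Pool.Agent.Q211.FS
open Pool.Agent.Q211.TP

/-- There is a countable transitive model of ZF with a Tychonoff space `X` of countable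
pseudocharacter such that the topology generated by the zero-sets of `X` is not discrete. -/
theorem result : ∃ M : Set ZFSet.{0}, M.Countable ∧ IsZF M ∧
    ∃ R ∈ M, ∃ σ ∈ M, IsReals M R σ ∧
    ∃ X ∈ M, ∃ τ ∈ M, IsTopIn M X τ ∧ TychIn M R σ X τ ∧ CountPsi M X τ ∧
      ∃ U ∈ M, U ⊆ X ∧ ¬ InTauZ M R σ X τ U := by
  obtain ⟨M, pt, c, X, K, R, BL, h⟩ := exists_chn ℤ int_homog ∅ Set.countable_empty
    (fun z hz => absurd hz (Set.notMem_empty z))
  obtain ⟨RR, hRR, σ, hσ, hRσ⟩ := exists_line h.zf h.qc h.lq
  obtain ⟨i, hi⟩ := goodE_real h.zf h.qc h.lq hRR hσ hRσ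
  obtain ⟨τ, hτM, hτ⟩ := exists_gen h.zf h.XM h.KM h.RM
  have htop := hτ.top h.zf h.XM
  have hinf : pt .inf ∈ X := (h.mX _).2 ⟨_, rfl⟩
  refine ⟨M, h.cnt, h.zf, RR, hRR, σ, hσ, hRσ, X, h.XM, τ, hτM, htop,
    tych_of_zeroDim h.zf h.qc h.lq hRR hRσ h.XM hτM htop
      (hτ.zeroDim h.zf h.XM h.KM h.RM (h.hsep h.subX)), h.countPsi hτM hτ, {pt .inf},
    h.zf.single_mem (h.zf.trans _ h.XM _ hinf), fun z hz => ?_, ?_⟩
  · rw [ZFSet.mem_singleton.1 hz]
    exact hinf
  · rintro ⟨-, -, h1⟩
    obtain ⟨Z, hZ, h2, h3⟩ := h1 _ (ZFSet.mem_singleton.2 rfl)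
    obtain ⟨n, hn⟩ := h.inf_not_zero hτ hRσ hi hZ h2
    exact absurd (h.inj (ZFSet.mem_singleton.1 (h3 hn))) (by simp)

end Pool.Agent.Results.MP_053343_lc.NotDiscrete
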